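import Pool.Agent.H27.Tab3

namespace Pool.Agent.Results.MP_c40ba2_an.Normal

open Pool.Agent.H27

theorem result (α β : ℝ) (hα : 1 ≤ α) (hβ : 1 ≤ β) :
    (∀ r < (1 : ℝ), ∃ C : ℝ, ∀ φ ∈ TabDef.T α β, ∀ z : ℂ, ‖z‖ ≤ r → ‖φ z‖ ≤ C) ∧
    ∀ φ : ℕ → ℂ → ℂ, (∀ n, φ n ∈ TabDef.T α β) → ∃ k : ℕ → ℕ, StrictMono k ∧ ∃ g : ℂ → ℂ,
      TendstoLocallyUniformlyOn (fun n => φ (k n)) g Filter.atTop (Metric.ball 0 1) := by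
  have h := Tab.lub (α := α) (by linarith) hβ
  refine ⟨fun r hr => ?_, fun φ hφ => Tab.montel (fun n => (hφ n).1) fun r hr => ?_⟩
  · obtain ⟨C, hC⟩ := h r hr
    exact ⟨C, fun φ hφ => hC ⟨φ, hφ⟩⟩
  · obtain ⟨C, hC⟩ := h r hr
    exact ⟨C, fun n => hC ⟨φ n, hφ n⟩⟩

end Pool.Agent.Results.MP_c40ba2_an.Normal
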